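import Pool.Agent.Helper4.TK.StD

/-! # Project TK (levels `3·5^n`): module ExA (the edge function of a solution of the relation) -/

set_option autoImplicit false

namespace Pool.Agent.Helper2.TK

open Pool.Agent.Helper14.W5 (tr5 S5Trm)
open Pool.Agent.Helper4.TK

private theorem ndm {a b : ℤ} (ha : ¬ (5 : ℤ) ∣ a) (hb : ¬ (5 : ℤ) ∣ b) : ¬ (5 : ℤ) ∣ a * b := by
  intro h
  rcases (Int.prime_ofNat_iff.2 (by norm_num : Nat.Prime 5)).dvd_or_dvd h with h | h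
  · exact ha h
  · exact hb h

private theorem cop {r : ℕ} {a : ℤ} (h : ¬ (5 : ℤ) ∣ a) : IsUnit ((a : ℤ) : ZMod (5 ^ r)) := by
  have h1 : IsCoprime a 5 := by
    have := (Int.prime_ofNat_iff.2 (by norm_num : Nat.Prime 5)).coprime_iff_not_dvd.2 h
    exact this.symm
  have h2 : IsCoprime a ((5 ^ r : ℕ) : ℤ) := by
    push_cast
    exact h1.pow_right
  exact (ZMod.coe_int_isUnit_iff_isCoprime a (5 ^ r)).2 h2.symm

private theorem den {r : ℕ} {a c : ℤ} (x : ZMod (5 ^ r)) (h : ¬ (5 : ℤ) ∣ a) :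
    IsUnit ((a : ZMod (5 ^ r)) + 5 * c * x) := by
  have : NeZero (5 ^ r) := ⟨pow_ne_zero _ (by norm_num)⟩
  have : (a : ZMod (5 ^ r)) + 5 * c * x = ((a + 5 * c * (x.val : ℤ) : ℤ) : ZMod (5 ^ r)) := by
    push_cast
    rw [ZMod.natCast_zmod_val]
  rw [this]
  apply cop
  intro h3
  exact h ((dvd_add_left (⟨c * (x.val : ℤ), by ring⟩ : (5 : ℤ) ∣ 5 * c * (x.val : ℤ))).1 h3)

private theorem res {a b c d : ℤ} (h : ¬ (5 : ℤ) ∣ a * d - 5 * (b * c)) :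
    ¬ (5 : ℤ) ∣ a ∧ ¬ (5 : ℤ) ∣ d := by
  constructor
  · rintro ⟨k, rfl⟩
    exact h ⟨k * d - b * c, by ring⟩
  · rintro ⟨k, rfl⟩
    exact h ⟨a * k - b * c, by ring⟩

/-- `(a b; 5c d)` has the coordinates `(x, y)` -/
private def Pt {r s : ℕ} (a b c d : ℤ) (x : ZMod (5 ^ r)) (y : ZMod (5 ^ s)) : Prop :=
  ¬ (5 : ℤ) ∣ a ∧ ¬ (5 : ℤ) ∣ d ∧ (b : ZMod (5 ^ r)) = x * a ∧ (c : ZMod (5 ^ s)) = y * d

private theorem pt_mk (r s : ℕ) {a b c d : ℤ} (ha : ¬ (5 : ℤ) ∣ a) (hd : ¬ (5 : ℤ) ∣ d) :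
    ∃ (x : ZMod (5 ^ r)) (y : ZMod (5 ^ s)), Pt a b c d x y := by
  refine ⟨(b : ZMod (5 ^ r)) * (a : ZMod (5 ^ r))⁻¹, (c : ZMod (5 ^ s)) * (d : ZMod (5 ^ s))⁻¹,
    ha, hd, ?_, ?_⟩
  · rw [mul_assoc, ZMod.inv_mul_of_unit _ (cop ha), mul_one]
  · rw [mul_assoc, ZMod.inv_mul_of_unit _ (cop hd), mul_one]

private theorem pt_scale {r s : ℕ} {a b c d k A B C D : ℤ} {x : ZMod (5 ^ r)} {y : ZMod (5 ^ s)}
    (h : Pt a b c d x y) (hk : ¬ (5 : ℤ) ∣ k) (hA : A = k * a) (hB : B = k * b) (hC : C = k * c)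
    (hD : D = k * d) : Pt A B C D x y := by
  obtain ⟨h1, h2, h3, h4⟩ := h
  subst hA hB hC hD
  refine ⟨ndm hk h1, ndm hk h2, ?_, ?_⟩
  · push_cast
    rw [h3]
    ring
  · push_cast
    rw [h4]
    ring

private theorem pt_mul {r s : ℕ} {a b c d : ℤ} {x : ZMod (5 ^ r)} {y : ZMod (5 ^ s)}
    (h : Pt a b c d x y) {α β γ δ : ℤ} (hα : ¬ (5 : ℤ) ∣ α) (hδ : ¬ (5 : ℤ) ∣ δ) :
    Pt (a * α + 5 * b * γ) (a * β + b * δ) (c * α + d * γ) (5 * c * β + d * δ)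
      (((β : ZMod (5 ^ r)) + (δ : ZMod (5 ^ r)) * x) *
        ((α : ZMod (5 ^ r)) + 5 * (γ : ZMod (5 ^ r)) * x)⁻¹)
      (((γ : ZMod (5 ^ s)) + (α : ZMod (5 ^ s)) * y) *
        ((δ : ZMod (5 ^ s)) + 5 * (β : ZMod (5 ^ s)) * y)⁻¹) := by
  obtain ⟨h1, h2, h3, h4⟩ := h
  have u1 := ZMod.inv_mul_of_unit _ (den (r := r) (a := α) (c := γ) x hα)
  have u2 := ZMod.inv_mul_of_unit _ (den (r := s) (a := δ) (c := β) y hδ)
  refine ⟨?_, ?_, ?_, ?_⟩
  · intro h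
    exact ndm h1 hα ((dvd_add_left (⟨b * γ, by ring⟩ : (5 : ℤ) ∣ 5 * b * γ)).1 h)
  · intro h
    exact ndm h2 hδ ((dvd_add_right (⟨c * β, by ring⟩ : (5 : ℤ) ∣ 5 * c * β)).1 h)
  · push_cast
    rw [h3]
    linear_combination (-((a : ZMod (5 ^ r)) * ((β : ZMod (5 ^ r)) + δ * x))) * u1
  · push_cast
    rw [h4]
    linear_combination (-((d : ZMod (5 ^ s)) * ((γ : ZMod (5 ^ s)) + α * y))) * u2

private theorem pt_left {r s : ℕ} {a b c d : ℤ} {x : ZMod (5 ^ r)} {y : ZMod (5 ^ s)}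
    (h : Pt a b c d x y) {α β γ δ A B C D : ℤ} (hα : ¬ (5 : ℤ) ∣ α) (hδ : ¬ (5 : ℤ) ∣ δ)
    (hA : A = α * a + 5 ^ r * β * (5 * c)) (hB : B = α * b + 5 ^ r * β * d)
    (hC : C = 5 ^ s * γ * a + δ * c) (hD : D = 5 ^ (s + 1) * γ * b + δ * d) : Pt A B C D x y := by
  obtain ⟨h1, h2, h3, h4⟩ := h
  subst hA hB hC hD
  have z1 : ((5 : ℤ) ^ r : ZMod (5 ^ r)) = 0 := by
    have := ZMod.natCast_self (5 ^ r)
    push_cast at this ⊢
    exact this
  have z2 : ((5 : ℤ) ^ s : ZMod (5 ^ s)) = 0 := by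
    have := ZMod.natCast_self (5 ^ s)
    push_cast at this ⊢
    exact this
  refine ⟨?_, ?_, ?_, ?_⟩
  · intro h
    exact ndm hα h1 ((dvd_add_left
      (⟨5 ^ r * β * c, by ring⟩ : (5 : ℤ) ∣ 5 ^ r * β * (5 * c))).1 h)
  · intro h
    exact ndm hδ h2 ((dvd_add_right
      (⟨5 ^ s * γ * b, by ring⟩ : (5 : ℤ) ∣ 5 ^ (s + 1) * γ * b)).1 h)
  · push_cast at z1 ⊢
    rw [z1, h3]
    ring
  · push_cast at z2 ⊢
    rw [pow_succ, z2, h4]
    ring

/-! ### the function -/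

private noncomputable def PX (r : ℕ) (a b : ℤ) : ZMod (5 ^ r) :=
  ((b : ℤ) : ZMod (5 ^ r)) * ((a : ℤ) : ZMod (5 ^ r))⁻¹

private theorem px_eq {r : ℕ} {a b A B : ℤ} {x : ZMod (5 ^ r)} (hA : A = a) (hB : B = b)
    (ha : ¬ (5 : ℤ) ∣ a) (h : (b : ZMod (5 ^ r)) = x * a) : PX r A B = x := by
  subst hA hB
  unfold PX
  rw [h, mul_assoc, ZMod.mul_inv_of_unit _ (cop ha), mul_one]

section

variable {R : Type} [AddCommGroup R] {r s : ℕ} (F : Fin 3 → ZMod (5 ^ r) → ZMod (5 ^ s) → R)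

private noncomputable def W (a b c d : ℤ) : R :=
  if c % 5 = 0 then F 0 (PX r a b) (PX s d (c / 5))
  else if (c - 3 * d) % 5 = 0 then F 1 (PX r (a - 3 * b) b) (PX s d ((c - 3 * d) / 5))
  else -hK F (PX r (-2 * a - 3 * b) (a + b)) (PX s (c + d) ((-2 * c - 3 * d) / 5))

private noncomputable def V (a b c d : ℤ) : R :=
  if c % 5 = 0 ∨ (c - 3 * d) % 5 = 0 ∨ (c - d) % 5 = 0 then W F a b c d
  else -W F (3 * b) (-a) (3 * d) (-c)

/-- `v` is the value of a matrix in one of the three classes `0`, `3`, `1`. -/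
private def Val (a b c d : ℤ) (v : R) : Prop :=
  (∃ (c' : ℤ) (x : ZMod (5 ^ r)) (y : ZMod (5 ^ s)), c = 5 * c' ∧ Pt a b c' d x y ∧ v = F 0 x y) ∨
  (∃ (c' : ℤ) (x : ZMod (5 ^ r)) (y : ZMod (5 ^ s)), c = 5 * c' + 3 * d ∧
    Pt (a - 3 * b) b c' d x y ∧ v = F 1 x y) ∨
  (∃ (c' : ℤ) (x : ZMod (5 ^ r)) (y : ZMod (5 ^ s)), -2 * c - 3 * d = 5 * c' ∧
    Pt (-2 * a - 3 * b) (a + b) c' (c + d) x y ∧ v = -hK F x y)

variable {F}

private theorem val_W {a b c d : ℤ} {v : R} (h : Val F a b c d v) : W F a b c d = v := by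
  unfold W
  rcases h with ⟨c', x, y, e, ⟨h1, h2, h3, h4⟩, rfl⟩ | ⟨c', x, y, e, ⟨h1, h2, h3, h4⟩, rfl⟩ |
    ⟨c', x, y, e, ⟨h1, h2, h3, h4⟩, rfl⟩
  · rw [if_pos (by omega), px_eq rfl rfl h1 h3, px_eq rfl (by omega) h2 h4]
  · rw [if_neg (by omega), if_pos (by omega), px_eq rfl rfl h1 h3, px_eq rfl (by omega) h2 h4]
  · rw [if_neg (by omega), if_neg (by omega), px_eq rfl rfl h1 h3, px_eq rfl (by omega) h2 h4]

private theorem val_V {a b c d : ℤ} {v : R} (h : Val F a b c d v) : V F a b c d = v := by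
  have h0 := val_W h
  unfold V
  rcases h with ⟨c', x, y, e, ⟨h1, h2, h3, h4⟩, -⟩ | ⟨c', x, y, e, ⟨h1, h2, h3, h4⟩, -⟩ |
    ⟨c', x, y, e, ⟨h1, h2, h3, h4⟩, -⟩
  · rw [if_pos (by omega), h0]
  · rw [if_pos (by omega), h0]
  · rw [if_pos (by omega), h0]

private theorem val_VS {a b c d : ℤ} {v : R} (h : Val F (3 * b) (-a) (3 * d) (-c) v) :
    V F a b c d = -v := by
  have h0 := val_W h
  unfold V
  rcases h with ⟨c', x, y, e, ⟨h1, h2, h3, h4⟩, -⟩ | ⟨c', x, y, e, ⟨h1, h2, h3, h4⟩, -⟩ |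
    ⟨c', x, y, e, ⟨h1, h2, h3, h4⟩, -⟩
  · rw [if_neg (by omega), h0]
  · rw [if_neg (by omega), h0]
  · rw [if_neg (by omega), h0]

private theorem val_scale {a b c d k A B C D : ℤ} {v : R} (h : Val F a b c d v)
    (hk : ¬ (5 : ℤ) ∣ k) (hA : A = k * a) (hB : B = k * b) (hC : C = k * c) (hD : D = k * d) :
    Val F A B C D v := by
  subst hA hB hC hD
  rcases h with ⟨c', x, y, e, hp, rfl⟩ | ⟨c', x, y, e, hp, rfl⟩ | ⟨c', x, y, e, hp, rfl⟩
  · exact Or.inl ⟨k * c', x, y, by rw [e]; ring, pt_scale hp hk rfl rfl rfl rfl, rfl⟩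
  · exact Or.inr (Or.inl ⟨k * c', x, y, by rw [e]; ring,
      pt_scale hp hk (by ring) rfl rfl rfl, rfl⟩)
  · exact Or.inr (Or.inr ⟨k * c', x, y, by linear_combination k * e,
      pt_scale hp hk (by ring) (by ring) rfl (by ring), rfl⟩)

private theorem val_left {a b c d α β γ δ A B C D : ℤ} {v : R} (h : Val F a b c d v)
    (hα : ¬ (5 : ℤ) ∣ α) (hδ : ¬ (5 : ℤ) ∣ δ)
    (hA : A = α * a + 5 ^ r * β * c) (hB : B = α * b + 5 ^ r * β * d)
    (hC : C = 5 ^ (s + 1) * γ * a + δ * c) (hD : D = 5 ^ (s + 1) * γ * b + δ * d) :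
    Val F A B C D v := by
  subst hA hB hC hD
  rcases h with ⟨c', x, y, e, hp, rfl⟩ | ⟨c', x, y, e, hp, rfl⟩ | ⟨c', x, y, e, hp, rfl⟩
  · refine Or.inl ⟨5 ^ s * γ * a + δ * c', x, y, by rw [e]; ring, ?_, rfl⟩
    exact pt_left hp hα hδ (by rw [e]) rfl rfl rfl
  · refine Or.inr (Or.inl ⟨5 ^ s * γ * (a - 3 * b) + δ * c', x, y, by rw [e]; ring, ?_, rfl⟩)
    exact pt_left hp hα hδ (by rw [e]; ring) rfl rfl rfl
  · refine Or.inr (Or.inr ⟨5 ^ s * γ * (-2 * a - 3 * b) + δ * c', x, y,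
      by linear_combination δ * e, ?_, rfl⟩)
    exact pt_left (α := α) (β := β) (γ := γ) (δ := δ) hp hα hδ
      (by linear_combination (5 ^ r * β) * e) (by ring) rfl (by ring)

private theorem cls1 : ∀ c d : ZMod 5, (c = 0 ∧ d = 0) ∨ c = 0 ∨ c - 3 * d = 0 ∨ c - d = 0 ∨
    d = 0 ∨ c + d = 0 ∨ c - 2 * d = 0 := by
  decide

private theorem e5d : ∀ z : ℤ, ((z : ℤ) : ZMod 5) = 0 → (5 : ℤ) ∣ z := fun z hz =>
  (ZMod.intCast_zmod_eq_zero_iff_dvd z 5).1 hz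

private theorem cl (c d : ℤ) : ((5 : ℤ) ∣ c ∧ (5 : ℤ) ∣ d) ∨ (5 : ℤ) ∣ c ∨ (5 : ℤ) ∣ c - 3 * d ∨
    (5 : ℤ) ∣ c - d ∨ (5 : ℤ) ∣ d ∨ (5 : ℤ) ∣ c + d ∨ (5 : ℤ) ∣ c - 2 * d := by
  rcases cls1 c d with ⟨p, q⟩ | p | p | p | p | p | p
  · exact Or.inl ⟨e5d _ p, e5d _ q⟩
  · exact Or.inr (Or.inl (e5d _ p))
  · exact Or.inr (Or.inr (Or.inl (e5d _ (by push_cast; exact p))))
  · exact Or.inr (Or.inr (Or.inr (Or.inl (e5d _ (by push_cast; exact p)))))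
  · exact Or.inr (Or.inr (Or.inr (Or.inr (Or.inl (e5d _ p)))))
  · exact Or.inr (Or.inr (Or.inr (Or.inr (Or.inr (Or.inl (e5d _ (by push_cast; exact p)))))))
  · exact Or.inr (Or.inr (Or.inr (Or.inr (Or.inr (Or.inr (e5d _ (by push_cast; exact p)))))))

private theorem fwd {a b c d : ℤ} (h : ¬ (5 : ℤ) ∣ a * d - b * c)
    (hc : (5 : ℤ) ∣ c ∨ (5 : ℤ) ∣ c - 3 * d ∨ (5 : ℤ) ∣ c - d) : ∃ v, Val F a b c d v := by
  rcases hc with ⟨c', hc'⟩ | ⟨c', hc'⟩ | ⟨c', hc'⟩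
  · have hr := res (a := a) (b := b) (c := c') (d := d) (by
      have : a * d - 5 * (b * c') = a * d - b * c := by rw [hc']; ring
      rwa [this])
    obtain ⟨x, y, hp⟩ := pt_mk r s (b := b) (c := c') hr.1 hr.2
    exact ⟨_, Or.inl ⟨c', x, y, hc', hp, rfl⟩⟩
  · have hr := res (a := a - 3 * b) (b := b) (c := c') (d := d) (by
      have : (a - 3 * b) * d - 5 * (b * c') = a * d - b * c := by linear_combination b * hc'
      rwa [this])
    obtain ⟨x, y, hp⟩ := pt_mk r s (b := b) (c := c') hr.1 hr.2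
    exact ⟨_, Or.inr (Or.inl ⟨c', x, y, by omega, hp, rfl⟩)⟩
  · have hr := res (a := -2 * a - 3 * b) (b := a + b) (c := -d - 2 * c') (d := c + d) (by
      have : (-2 * a - 3 * b) * (c + d) - 5 * ((a + b) * (-d - 2 * c')) =
          a * d - b * c := by linear_combination (-2 * (a + b)) * hc'
      rwa [this])
    obtain ⟨x, y, hp⟩ := pt_mk r s (b := a + b) (c := -d - 2 * c') hr.1 hr.2
    exact ⟨_, Or.inr (Or.inr ⟨-d - 2 * c', x, y, by omega, hp, rfl⟩)⟩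

private theorem cls {a b c d : ℤ} (h : ¬ (5 : ℤ) ∣ a * d - b * c) :
    (∃ v, Val F a b c d v) ∨ (∃ v, Val F (3 * b) (-a) (3 * d) (-c) v) := by
  have h2 : ¬ (5 : ℤ) ∣ 3 * b * -c - -a * (3 * d) := by
    have : 3 * b * -c - -a * (3 * d) = 3 * (a * d - b * c) := by ring
    rw [this]
    exact ndm (by decide) h
  rcases cl c d with ⟨⟨c', hc⟩, ⟨d', hd⟩⟩ | p | p | p | p | p | p
  · exact absurd ⟨a * d' - b * c', by rw [hc, hd]; ring⟩ h
  · exact Or.inl (fwd h (Or.inl p))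
  · exact Or.inl (fwd h (Or.inr (Or.inl p)))
  · exact Or.inl (fwd h (Or.inr (Or.inr p)))
  · exact Or.inr (fwd h2 (Or.inl (by omega)))
  · exact Or.inr (fwd h2 (Or.inr (Or.inl (by omega))))
  · exact Or.inr (fwd h2 (Or.inr (Or.inr (by omega))))

private theorem V_scale {a b c d : ℤ} (h : ¬ (5 : ℤ) ∣ a * d - b * c) (k : ℤ)
    (hk : ¬ (5 : ℤ) ∣ k) {A B C D : ℤ} (hA : A = k * a) (hB : B = k * b) (hC : C = k * c)
    (hD : D = k * d) : V F A B C D = V F a b c d := by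
  rcases cls (F := F) h with ⟨v, hv⟩ | ⟨v, hv⟩
  · rw [val_V hv, val_V (val_scale hv hk hA hB hC hD)]
  · rw [val_VS hv]
    exact val_VS (val_scale hv hk (by rw [hB]; ring) (by rw [hA]; ring) (by rw [hD]; ring)
      (by rw [hC]; ring))

private theorem V_S {a b c d : ℤ} (h : ¬ (5 : ℤ) ∣ a * d - b * c) {A B C D : ℤ}
    (hA : A = 3 * b) (hB : B = -a) (hC : C = 3 * d) (hD : D = -c) :
    V F A B C D = -V F a b c d := by
  subst hA hB hC hD
  rcases cls (F := F) h with ⟨v, hv⟩ | ⟨v, hv⟩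
  · rw [val_V hv]
    exact val_VS (val_scale (k := -3) hv (by decide) (by ring) (by ring) (by ring) (by ring))
  · rw [val_VS hv, val_V hv, neg_neg]

private theorem V_left {a b c d α β γ δ A B C D : ℤ} (h : ¬ (5 : ℤ) ∣ a * d - b * c)
    (hα : ¬ (5 : ℤ) ∣ α) (hδ : ¬ (5 : ℤ) ∣ δ) (hβ : (5 : ℤ) ^ r ∣ β) (hγ : (5 : ℤ) ^ (s + 1) ∣ γ)
    (hA : A = α * a + β * c) (hB : B = α * b + β * d)
    (hC : C = γ * a + δ * c) (hD : D = γ * b + δ * d) :
    V F A B C D = V F a b c d := by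
  obtain ⟨β', rfl⟩ := hβ
  obtain ⟨γ', rfl⟩ := hγ
  rcases cls (F := F) h with ⟨v, hv⟩ | ⟨v, hv⟩
  · rw [val_V hv, val_V (val_left hv hα hδ hA hB hC hD)]
  · rw [val_VS hv]
    exact val_VS (val_left (β := β') (γ := γ') hv hα hδ (by rw [hB]; ring) (by rw [hA]; ring)
      (by rw [hD]; ring) (by rw [hC]; ring))

/-! ### values -/

private theorem ev0 {a b c d : ℤ} {x : ZMod (5 ^ r)} {y : ZMod (5 ^ s)} (hp : Pt a b c d x y)
    {A B C D : ℤ} (hA : A = a) (hB : B = b) (hC : C = 5 * c) (hD : D = d) :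
    V F A B C D = F 0 x y := by
  subst hA hB hC hD
  exact val_V (Or.inl ⟨c, x, y, rfl, hp, rfl⟩)

private theorem ev3 {a b c d : ℤ} {x : ZMod (5 ^ r)} {y : ZMod (5 ^ s)} (hp : Pt a b c d x y)
    {A B C D : ℤ} (hA : A = a + 3 * b) (hB : B = b) (hC : C = 5 * c + 3 * d) (hD : D = d) :
    V F A B C D = F 1 x y := by
  subst hA hB hC hD
  exact val_V (Or.inr (Or.inl ⟨c, x, y, rfl,
    pt_scale (k := 1) hp (by decide) (by ring) (by ring) (by ring) (by ring), rfl⟩))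

private theorem ev1 {a b c d : ℤ} {x : ZMod (5 ^ r)} {y : ZMod (5 ^ s)} (hp : Pt a b c d x y)
    {A B C D : ℤ} (hA : A = a + 3 * b) (hB : B = -a - 2 * b) (hC : C = 5 * c + 3 * d)
    (hD : D = -(5 * c) - 2 * d) :
    V F A B C D = -hK F x y := by
  subst hA hB hC hD
  exact val_V (Or.inr (Or.inr ⟨c, x, y, by ring,
    pt_scale (k := 1) hp (by decide) (by ring) (by ring) (by ring) (by ring), rfl⟩))

/-! ### the hexagon relation -/

private def Hx (F : Fin 3 → ZMod (5 ^ r) → ZMod (5 ^ s) → R) (a b c d : ℤ) : Prop :=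
  V F a b c d + V F (3 * a + 3 * b) (-a) (3 * c + 3 * d) (-c)
    + V F (2 * a + 3 * b) (-a - b) (2 * c + 3 * d) (-c - d)
    + V F (3 * a + 6 * b) (-2 * a - 3 * b) (3 * c + 6 * d) (-2 * c - 3 * d)
    + V F (a + 3 * b) (-a - 2 * b) (c + 3 * d) (-c - 2 * d)
    + V F (3 * b) (-a - 3 * b) (3 * d) (-c - 3 * d) = 0

private theorem ndet {a b c d : ℤ} (h : ¬ (5 : ℤ) ∣ a * d - b * c) (k : ℤ)
    (hk : ¬ (5 : ℤ) ∣ k) {m : ℤ} (hm : m = k * (a * d - b * c)) : ¬ (5 : ℤ) ∣ m := by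
  rw [hm]
  exact ndm hk h

private theorem hx_rot {a b c d : ℤ} (h : ¬ (5 : ℤ) ∣ a * d - b * c)
    (hs : Hx F (3 * a + 3 * b) (-a) (3 * c + 3 * d) (-c)) : Hx F a b c d := by
  unfold Hx at hs ⊢
  have t1 : V F (3 * (3 * a + 3 * b) + 3 * -a) (-(3 * a + 3 * b)) (3 * (3 * c + 3 * d) + 3 * -c)
      (-(3 * c + 3 * d)) = V F (2 * a + 3 * b) (-a - b) (2 * c + 3 * d) (-c - d) :=
    V_scale (ndet h 1 (by decide) (by ring)) 3 (by decide) (by ring) (by ring) (by ring) (by ring)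
  have t3 : V F (3 * (3 * a + 3 * b) + 6 * -a) (-2 * (3 * a + 3 * b) - 3 * -a)
      (3 * (3 * c + 3 * d) + 6 * -c) (-2 * (3 * c + 3 * d) - 3 * -c) =
      V F (a + 3 * b) (-a - 2 * b) (c + 3 * d) (-c - 2 * d) :=
    V_scale (ndet h 1 (by decide) (by ring)) 3 (by decide) (by ring) (by ring) (by ring) (by ring)
  have t5 : V F (3 * -a) (-(3 * a + 3 * b) - 3 * -a) (3 * -c) (-(3 * c + 3 * d) - 3 * -c) =
      V F a b c d :=
    V_scale h (-3) (by decide) (by ring) (by ring) (by ring) (by ring)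
  have e1 : 2 * (3 * a + 3 * b) + 3 * -a = 3 * a + 6 * b := by ring
  have e2 : -(3 * a + 3 * b) - -a = -2 * a - 3 * b := by ring
  have e3 : 2 * (3 * c + 3 * d) + 3 * -c = 3 * c + 6 * d := by ring
  have e4 : -(3 * c + 3 * d) - -c = -2 * c - 3 * d := by ring
  have e5 : 3 * a + 3 * b + 3 * -a = 3 * b := by ring
  have e6 : -(3 * a + 3 * b) - 2 * -a = -a - 3 * b := by ring
  have e7 : 3 * c + 3 * d + 3 * -c = 3 * d := by ring
  have e8 : -(3 * c + 3 * d) - 2 * -c = -c - 3 * d := by ring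
  rw [t1, t3, t5, e1, e2, e3, e4, e5, e6, e7, e8] at hs
  rw [← hs]
  abel

private theorem pt_det {a b c d : ℤ} {x : ZMod (5 ^ r)} {y : ZMod (5 ^ s)}
    (hp : Pt a b c d x y) : ¬ (5 : ℤ) ∣ a * d - b * (5 * c) := by
  intro h
  exact ndm hp.1 hp.2.1 ((dvd_sub_left (⟨b * c, by ring⟩ : (5 : ℤ) ∣ b * (5 * c))).1 h)

private theorem hx0 (hR : RelK F) {a b c d : ℤ} {x : ZMod (5 ^ r)} {y : ZMod (5 ^ s)}
    (hp : Pt a b c d x y) : Hx F a b (5 * c) d := by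
  have hd := pt_det hp
  have m1 := pt_mul hp (α := 1) (β := 1) (γ := 0) (δ := 1) (by decide) (by decide)
  have m2 := pt_mul hp (α := 12) (β := -5) (γ := 3) (δ := -6) (by decide) (by decide)
  have m3 := pt_mul hp (α := 9) (β := -2) (γ := 3) (δ := -3) (by decide) (by decide)
  have hR' := hR x y
  unfold Hx
  rw [ev0 hp rfl rfl rfl rfl,
    V_S (F := F) (a := a) (b := a + b) (c := 5 * c) (d := 5 * c + d)
      (A := 3 * a + 3 * b) (B := -a) (C := 3 * (5 * c) + 3 * d) (D := -(5 * c))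
      (ndet hd 1 (by decide) (by ring)) (by ring) (by ring) (by ring) (by ring),
    ev0 m1 (by ring) (by ring) (by ring) (by ring),
    ← V_scale (F := F) (a := 2 * a + 3 * b) (b := -a - b) (c := 2 * (5 * c) + 3 * d)
      (d := -(5 * c) - d) (ndet hd 1 (by decide) (by ring)) 3 (by decide) rfl rfl rfl rfl,
    V_S (F := F) (a := 3 * a + 3 * b) (b := 2 * a + 3 * b) (c := 15 * c + 3 * d)
      (d := 10 * c + 3 * d) (A := 3 * (2 * a + 3 * b)) (B := 3 * (-a - b))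
      (C := 3 * (2 * (5 * c) + 3 * d)) (D := 3 * (-(5 * c) - d))
      (ndet hd 3 (by decide) (by ring)) (by ring) (by ring) (by ring) (by ring),
    ← V_scale (F := F) (a := 3 * a + 3 * b) (b := 2 * a + 3 * b) (c := 15 * c + 3 * d)
      (d := 10 * c + 3 * d) (ndet hd 3 (by decide) (by ring)) (-1) (by decide) rfl rfl rfl rfl,
    ev1 m2 (by ring) (by ring) (by ring) (by ring),
    ev3 m3 (by ring) (by ring) (by ring) (by ring),
    ev1 hp rfl rfl rfl rfl,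
    V_S (F := F) (a := a + 3 * b) (b := b) (c := 5 * c + 3 * d) (d := d)
      (A := 3 * b) (B := -a - 3 * b) (C := 3 * d) (D := -(5 * c) - 3 * d)
      (ndet hd 1 (by decide) (by ring)) (by ring) (by ring) (by ring) (by ring),
    ev3 hp rfl rfl rfl rfl, ← hR']
  unfold tr5
  abel

private theorem hx_all (hR : RelK F) {a b c d : ℤ} (h : ¬ (5 : ℤ) ∣ a * d - b * c) :
    Hx F a b c d := by
  have k0 : ∀ {a b c d : ℤ}, ¬ (5 : ℤ) ∣ a * d - b * c → (5 : ℤ) ∣ c → Hx F a b c d := by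
    intro a b c d h hc
    obtain ⟨c', rfl⟩ := hc
    have hr := res (a := a) (b := b) (c := c') (d := d) (ndet h 1 (by decide) (by ring))
    obtain ⟨x, y, hp⟩ := pt_mk r s (b := b) (c := c') hr.1 hr.2
    exact hx0 hR hp
  have k4 : ∀ {a b c d : ℤ}, ¬ (5 : ℤ) ∣ a * d - b * c → (5 : ℤ) ∣ c + d → Hx F a b c d := by
    intro a b c d h hc
    exact hx_rot h (k0 (ndet h 3 (by decide) (by ring)) (by omega))
  have k1 : ∀ {a b c d : ℤ}, ¬ (5 : ℤ) ∣ a * d - b * c → (5 : ℤ) ∣ c - d → Hx F a b c d := by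
    intro a b c d h hc
    exact hx_rot h (k4 (ndet h 3 (by decide) (by ring)) (by omega))
  have k3 : ∀ {a b c d : ℤ}, ¬ (5 : ℤ) ∣ a * d - b * c → (5 : ℤ) ∣ c - 3 * d → Hx F a b c d := by
    intro a b c d h hc
    exact hx_rot h (k1 (ndet h 3 (by decide) (by ring)) (by omega))
  have k2 : ∀ {a b c d : ℤ}, ¬ (5 : ℤ) ∣ a * d - b * c → (5 : ℤ) ∣ c - 2 * d → Hx F a b c d := by
    intro a b c d h hc
    exact hx_rot h (k3 (ndet h 3 (by decide) (by ring)) (by omega))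
  have k5 : ∀ {a b c d : ℤ}, ¬ (5 : ℤ) ∣ a * d - b * c → (5 : ℤ) ∣ d → Hx F a b c d := by
    intro a b c d h hc
    exact hx_rot h (k2 (ndet h 3 (by decide) (by ring)) (by omega))
  rcases cl c d with ⟨⟨c', hc⟩, ⟨d', hd⟩⟩ | p | p | p | p | p | p
  · exact absurd ⟨a * d' - b * c', by rw [hc, hd]; ring⟩ h
  · exact k0 h p
  · exact k3 h p
  · exact k1 h p
  · exact k5 h p
  · exact k4 h p
  · exact k2 h p

end

private theorem one5 {m : ℤ} (h : m = 1) : ¬ (5 : ℤ) ∣ m := by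
  rw [h]
  decide

/-- Module ExA. -/
theorem hExA (_ht : S5Trm) : TExA := by
  intro R _ r s F hR
  refine ⟨V F, ?_, ?_, ?_, ?_, ?_⟩
  · intro a b c d h _
    exact V_scale (one5 h) (-1) (by decide) (by ring) (by ring) (by ring) (by ring)
  · intro a b c d h _
    have h1 := hx_all hR (one5 h)
    unfold Hx at h1
    have t1 : V F (3 * a + 3 * b) (-a) (3 * c + 3 * d) (-c) = -V F a (a + b) c (c + d) :=
      V_S (ndet (one5 h) 1 (by decide) (by ring)) (by ring) (by ring) (by ring) (by ring)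
    have t3 : V F (3 * a + 6 * b) (-2 * a - 3 * b) (3 * c + 6 * d) (-2 * c - 3 * d) =
        -V F (2 * a + 3 * b) (a + 2 * b) (2 * c + 3 * d) (c + 2 * d) :=
      V_S (ndet (one5 h) 1 (by decide) (by ring)) (by ring) (by ring) (by ring) (by ring)
    have t5 : V F (3 * b) (-a - 3 * b) (3 * d) (-c - 3 * d) = -V F (a + 3 * b) b (c + 3 * d) d :=
      V_S (ndet (one5 h) 1 (by decide) (by ring)) (by ring) (by ring) (by ring) (by ring)
    rw [t1, t3, t5] at h1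
    have e1 : -(a + b) = -a - b := by ring
    have e2 : -(c + d) = -c - d := by ring
    have e3 : -(a + 2 * b) = -a - 2 * b := by ring
    have e4 : -(c + 2 * d) = -c - 2 * d := by ring
    rw [e1, e2, e3, e4, ← h1]
    abel
  · intro α β γ δ a b c d hg _ hβ hγ h _
    obtain ⟨γ', hγ'⟩ := hγ
    have hr := res (a := α) (b := β * 5 ^ s) (c := γ') (d := δ) (one5 (by
      rw [← hg, hγ']; ring))
    exact V_left (one5 h) hr.1 hr.2 hβ ⟨γ', hγ'⟩ rfl rfl rfl rfl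
  · intro α β γ δ a b c d hg hβ hγ h
    obtain ⟨γ', hγ'⟩ := hγ
    have hr := res (a := 3 * α) (b := β * 5 ^ s) (c := γ') (d := δ) (one5 (by
      rw [← hg, hγ']; ring))
    have hd : ¬ (5 : ℤ) ∣ 3 * δ := ndm (by decide) hr.2
    have hN : ¬ (5 : ℤ) ∣ a * d - b * (3 * c) := one5 (by linear_combination h)
    have hdet : (3 * α * a + β * (3 * c)) * (3 * γ * b + 3 * δ * d) -
        (3 * α * b + β * d) * (3 * γ * a + 3 * δ * (3 * c)) =
        3 * (a * d - b * (3 * c)) := by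
      linear_combination 3 * (a * d - b * (3 * c)) * hg
    have h1 : V F (3 * α * a + β * (3 * c)) (3 * α * b + β * d) (3 * γ * a + 3 * δ * (3 * c))
        (3 * γ * b + 3 * δ * d) = V F a b (3 * c) d :=
      V_left hN hr.1 hd hβ ⟨3 * γ', by rw [hγ']; ring⟩ rfl rfl rfl rfl
    rw [← h1]
    have hN2 : ¬ (5 : ℤ) ∣ (3 * α * a + β * (3 * c)) * (3 * γ * b + 3 * δ * d) -
        (3 * α * b + β * d) * (3 * γ * a + 3 * δ * (3 * c)) := by
      rw [hdet]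
      exact ndm (by decide) hN
    rw [← V_S (F := F) hN2 rfl rfl rfl rfl]
    symm
    refine V_scale ?_ 3 (by decide) (by ring) (by ring) (by ring) (by ring)
    have : (3 * α * b + β * d) * -(γ * a + 3 * δ * c) - -(α * a + β * c) * (3 * (γ * b + δ * d)) =
        1 := by
      linear_combination (a * d - 3 * b * c) * hg + h
    rw [this]
    decide
  · intro x y a b c d h _ hx hy
    have hr := res (a := a) (b := b) (c := c) (d := d) (one5 (by linear_combination h))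
    have hp : Pt a b c d x y := ⟨hr.1, hr.2, hx, hy⟩
    have h3 : V F (a + 3 * b) b (5 * c + 3 * d) d = F 1 x y := ev3 hp rfl rfl rfl rfl
    refine ⟨ev0 hp rfl rfl rfl rfl, h3, ?_⟩
    rw [h3, ev1 hp (A := a + 3 * b) (B := -(a + 2 * b)) (C := 5 * c + 3 * d)
      (D := -(5 * c + 2 * d)) rfl (by ring) rfl (by ring)]
    unfold hK
    abel

end Pool.Agent.Helper2.TK
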